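import Pool.Agent.Run7.h378.PS.Stm

set_option autoImplicit false

/-! Piece CL of project PS (helper378): the cone of sums of squares of bounded degree is closed. -/

namespace Run7.h690.PS

open MvPolynomial Filter Topology Run7.h378.PS

/-- exponent of a bounded index -/
noncomputable def emb {v d : ℕ} (a : Fin v → Fin (d + 1)) : Fin v →₀ ℕ :=
  Finsupp.equivFunOnFinite.symm fun i => (a i : ℕ)

theorem emb_apply {v d : ℕ} (a : Fin v → Fin (d + 1)) (i : Fin v) : emb a i = (a i : ℕ) := rfl

theorem emb_inj {v d : ℕ} : Function.Injective (emb : (Fin v → Fin (d + 1)) → (Fin v →₀ ℕ)) := by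
  intro a b h
  funext i
  have := DFunLike.congr_fun h i
  exact Fin.ext this

theorem exists_emb {v d : ℕ} (q : MvPolynomial (Fin v) ℝ) (hq : q.totalDegree ≤ d)
    {g : Fin v →₀ ℕ} (hg : g ∈ q.support) : ∃ a : Fin v → Fin (d + 1), emb a = g := by
  have h1 := (le_totalDegree hg).trans hq
  have h2 : ∀ i, g i ≤ d := by
    intro i
    refine le_trans ?_ h1
    by_cases hi : i ∈ g.support
    · exact Finset.single_le_sum (f := fun i => g i) (fun _ _ => Nat.zero_le _) hi
    · rw [Finsupp.notMem_support_iff.1 hi]; exact Nat.zero_le _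
  refine ⟨fun i => ⟨g i, Nat.lt_succ_of_le (h2 i)⟩, ?_⟩
  ext i
  rfl

/-- polynomial of a coefficient vector -/
noncomputable def poly {v d : ℕ} (c : (Fin v → Fin (d + 1)) → ℝ) : MvPolynomial (Fin v) ℝ :=
  ∑ a, monomial (emb a) (c a)

theorem coeff_poly_emb {v d : ℕ} (c : (Fin v → Fin (d + 1)) → ℝ) (a : Fin v → Fin (d + 1)) :
    coeff (emb a) (poly c) = c a := by
  classical
  unfold poly
  rw [coeff_sum, Finset.sum_eq_single a]
  · rw [coeff_monomial, if_pos rfl]
  · intro b _ hb
    rw [coeff_monomial, if_neg]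
    exact fun h => hb (emb_inj h)
  · intro h
    exact absurd (Finset.mem_univ a) h

theorem eq_poly {v d : ℕ} (q : MvPolynomial (Fin v) ℝ) (hq : q.totalDegree ≤ d) :
    q = poly (fun a : Fin v → Fin (d + 1) => coeff (emb a) q) := by
  classical
  ext g
  by_cases hg : g ∈ q.support
  · obtain ⟨a, rfl⟩ := exists_emb q hq hg
    rw [coeff_poly_emb]
  · rw [notMem_support_iff.1 hg]
    unfold poly
    rw [coeff_sum]
    symm
    refine Finset.sum_eq_zero fun a _ => ?_
    rw [coeff_monomial]
    split_ifs with h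
    · show coeff (emb a) q = 0
      rw [h]; exact notMem_support_iff.1 hg
    · rfl

theorem eval_poly {v d : ℕ} (c : (Fin v → Fin (d + 1)) → ℝ) (p : Fin v → ℝ) :
    eval p (poly c) = ∑ a, c a * ∏ i, p i ^ (a i : ℕ) := by
  unfold poly
  rw [map_sum]
  refine Finset.sum_congr rfl fun a _ => ?_
  rw [eval_monomial, Finsupp.prod_fintype]
  · rfl
  · intro i; exact pow_zero _

/-- the evaluation map on the grid -/
noncomputable def L (v m : ℕ) : ((Fin v → Fin (m + 1)) → ℝ) →ₗ[ℝ] ((Fin v → Fin (m + 1)) → ℝ) where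
  toFun c := fun p => ∑ a, c a * ∏ i, ((p i : ℕ) : ℝ) ^ (a i : ℕ)
  map_add' c e := by
    funext p
    simp only [Pi.add_apply, add_mul, Finset.sum_add_distrib]
  map_smul' t c := by
    funext p
    simp only [Pi.smul_apply, smul_eq_mul, RingHom.id_apply, Finset.mul_sum, mul_assoc]

theorem L_apply {v m : ℕ} (c : (Fin v → Fin (m + 1)) → ℝ) (p : Fin v → Fin (m + 1)) :
    L v m c p = eval (fun i => ((p i : ℕ) : ℝ)) (poly c) := (eval_poly c _).symm

theorem L_ker (v m : ℕ) : LinearMap.ker (L v m) = ⊥ := by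
  classical
  rw [LinearMap.ker_eq_bot']
  intro c hc
  have h0 : poly c = 0 := by
    refine eq_zero_of_eval_zero_at_prod_finset (poly c)
      (fun _ => (Finset.univ : Finset (Fin (m + 1))).image fun k : Fin (m + 1) => ((k : ℕ) : ℝ)) ?_ ?_
    · intro i
      rw [Finset.card_image_of_injective _ (fun a b h => Fin.ext (Nat.cast_injective h)),
        Finset.card_univ, Fintype.card_fin, degreeOf_lt_iff (Nat.succ_pos m)]
      intro g hg
      have h1 : ∃ a : Fin v → Fin (m + 1), emb a = g := by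
        by_contra hcon
        rw [mem_support_iff] at hg
        apply hg
        unfold poly
        rw [coeff_sum]
        refine Finset.sum_eq_zero fun a _ => ?_
        rw [coeff_monomial, if_neg]
        exact fun h => hcon ⟨a, h⟩
      obtain ⟨a, rfl⟩ := h1
      rw [emb_apply]
      exact (a i).2
    · intro x hx
      have h1 : ∀ i, ∃ k : Fin (m + 1), ((k : ℕ) : ℝ) = x i := by
        intro i
        have := hx i
        rw [Finset.mem_image] at this
        obtain ⟨k, -, hk⟩ := this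
        exact ⟨k, hk⟩
      choose p hp using h1
      have h2 := congrFun hc p
      rw [L_apply] at h2
      have h3 : x = fun i => ((p i : ℕ) : ℝ) := by
        funext i; exact (hp i).symm
      rw [h3]
      exact h2
  funext a
  rw [← coeff_poly_emb c a, h0]
  simp

/-- the sum of the squares depends only on the Gram matrix -/
theorem sum_sq {v d : ℕ} {ι : Type} [Fintype ι] (c : ι → (Fin v → Fin (d + 1)) → ℝ) :
    ∑ i, poly (c i) ^ 2 = ∑ a, ∑ b, monomial (emb a + emb b) (∑ i, c i a * c i b) := by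
  have h1 : ∀ i, poly (c i) ^ 2 = ∑ a, ∑ b, monomial (emb a + emb b) (c i a * c i b) := by
    intro i
    unfold poly
    rw [sq, Finset.sum_mul_sum]
    refine Finset.sum_congr rfl fun a _ => Finset.sum_congr rfl fun b _ => ?_
    rw [monomial_mul]
  rw [Finset.sum_congr rfl fun i _ => h1 i, Finset.sum_comm]
  refine Finset.sum_congr rfl fun a _ => ?_
  rw [Finset.sum_comm]
  refine Finset.sum_congr rfl fun b _ => ?_
  rw [map_sum]

open scoped MatrixOrder in
theorem gram {v m : ℕ} (hD : S_D) {Q : MvPolynomial (Fin v) ℝ} (hQ : SOS Q)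
    (hdeg : Q.totalDegree ≤ 2 * m) :
    ∃ M : (Fin v → Fin (m + 1)) → (Fin v → Fin (m + 1)) → ℝ, Q = ∑ i, poly (M i) ^ 2 := by
  classical
  obtain ⟨r, q, rfl⟩ := hQ
  have h1 := hD v r m q hdeg
  set c : Fin r → (Fin v → Fin (m + 1)) → ℝ := fun i a => coeff (emb a) (q i) with hc
  have h2 : ∑ i, q i ^ 2 = ∑ i, poly (c i) ^ 2 := by
    refine Finset.sum_congr rfl fun i _ => ?_
    rw [← eq_poly (q i) (h1 i)]
  let G : Matrix (Fin v → Fin (m + 1)) (Fin v → Fin (m + 1)) ℝ := fun a b => ∑ i, c i a * c i b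
  have hG : G.PosSemidef := by
    have h3 : G = (Matrix.of c).conjTranspose * (Matrix.of c) := by
      ext a b
      simp [G, Matrix.mul_apply]
    rw [h3]
    exact Matrix.posSemidef_conjTranspose_mul_self _
  obtain ⟨B, hB⟩ := CStarAlgebra.nonneg_iff_eq_star_mul_self.mp hG.nonneg
  refine ⟨fun i a => B i a, ?_⟩
  rw [h2, sum_sq, sum_sq]
  refine Finset.sum_congr rfl fun a _ => Finset.sum_congr rfl fun b _ => ?_
  congr 1
  have h4 := congrFun (congrFun hB a) b
  simp only [G, Matrix.star_eq_conjTranspose, Matrix.mul_apply, Matrix.conjTranspose_apply,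
    star_trivial] at h4
  exact h4

theorem coeff_sum_sq {v m : ℕ} (M : (Fin v → Fin (m + 1)) → (Fin v → Fin (m + 1)) → ℝ)
    (g : Fin v →₀ ℕ) : coeff g (∑ i, poly (M i) ^ 2) =
      ∑ a, ∑ b, if emb a + emb b = g then ∑ i, M i a * M i b else 0 := by
  classical
  rw [sum_sq, coeff_sum]
  refine Finset.sum_congr rfl fun a _ => ?_
  rw [coeff_sum]
  refine Finset.sum_congr rfl fun b _ => ?_
  rw [coeff_monomial]

theorem cont {v m : ℕ} (g : Fin v →₀ ℕ) :
    Continuous fun M : (Fin v → Fin (m + 1)) → (Fin v → Fin (m + 1)) → ℝ =>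
      coeff g (∑ i, poly (M i) ^ 2) := by
  classical
  simp only [coeff_sum_sq]
  refine continuous_finsetSum _ fun a _ => continuous_finsetSum _ fun b _ => ?_
  split_ifs
  · exact continuous_finsetSum _ fun i _ => (continuous_apply_apply i a).mul
      (continuous_apply_apply i b)
  · exact continuous_const

theorem t_CL : S_CL := by
  classical
  intro hD v m F F0 hF hdeg hlim
  choose M hM using fun N => gram hD (hF N) (hdeg N)
  -- values on the grid are bounded
  have hval : ∀ p : Fin v → ℝ, ∃ K : ℝ, ∀ N, eval p (F N) ≤ K := by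
    intro p
    have h1 : ∀ N, eval p (F N) = ∑ a : Fin v → Fin (2 * m + 1),
        coeff (emb a) (F N) * ∏ i, p i ^ (a i : ℕ) := by
      intro N
      conv_lhs => rw [eq_poly (F N) (hdeg N)]
      rw [eval_poly]
    have h2 : Tendsto (fun N => eval p (F N)) atTop
        (𝓝 (∑ a : Fin v → Fin (2 * m + 1), coeff (emb a) F0 * ∏ i, p i ^ (a i : ℕ))) := by
      simp only [h1]
      exact tendsto_finsetSum _ fun a _ => (hlim _).mul_const _
    obtain ⟨K, hK⟩ := h2.bddAbove_range
    exact ⟨K, fun N => hK ⟨N, rfl⟩⟩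
  choose K hK using hval
  obtain ⟨A, hA0, hA⟩ := (L v m).exists_antilipschitzWith (L_ker v m)
  -- bound for the coefficient vectors
  obtain ⟨R, hR⟩ : ∃ R : ℝ, ∀ p : Fin v → Fin (m + 1), K (fun i => ((p i : ℕ) : ℝ)) ≤ R :=
    (Set.finite_range _).bddAbove.imp fun R hR p => hR ⟨p, rfl⟩
  have hR0 : 0 ≤ |R| := abs_nonneg R
  have hb : ∀ N i, ‖M N i‖ ≤ A * Real.sqrt |R| := by
    intro N i
    have h1 := hA.le_mul_dist (M N i) 0
    rw [map_zero, dist_zero_right, dist_zero_right] at h1
    refine h1.trans (mul_le_mul_of_nonneg_left ?_ A.2)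
    rw [pi_norm_le_iff_of_nonneg (Real.sqrt_nonneg _)]
    intro p
    rw [Real.norm_eq_abs]
    refine Real.abs_le_sqrt ?_
    rw [L_apply]
    have h2 : eval (fun i => ((p i : ℕ) : ℝ)) (F N) =
        ∑ i, (eval (fun i => ((p i : ℕ) : ℝ)) (poly (M N i))) ^ 2 := by
      rw [hM N, map_sum]
      refine Finset.sum_congr rfl fun i _ => by rw [map_pow]
    have h3 : (eval (fun i => ((p i : ℕ) : ℝ)) (poly (M N i))) ^ 2 ≤
        eval (fun i => ((p i : ℕ) : ℝ)) (F N) := by
      rw [h2]
      exact Finset.single_le_sum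
        (f := fun i => (eval (fun i => ((p i : ℕ) : ℝ)) (poly (M N i))) ^ 2)
        (fun _ _ => sq_nonneg _) (Finset.mem_univ i)
    exact h3.trans ((hK _ N).trans ((hR p).trans (le_abs_self R)))
  have hbd : ∀ N, M N ∈ Metric.closedBall
      (0 : (Fin v → Fin (m + 1)) → (Fin v → Fin (m + 1)) → ℝ) (A * Real.sqrt |R|) := by
    intro N
    rw [mem_closedBall_zero_iff]
    exact (pi_norm_le_iff_of_nonneg (mul_nonneg A.2 (Real.sqrt_nonneg _))).2 (hb N)
  obtain ⟨M0, -, φ, hφ, hlimM⟩ := tendsto_subseq_of_bounded Metric.isBounded_closedBall hbd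
  have hfin : F0 = ∑ i, poly (M0 i) ^ 2 := by
    ext g
    have h1 : Tendsto (fun k => coeff g (F (φ k))) atTop (𝓝 (coeff g F0)) :=
      (hlim g).comp hφ.tendsto_atTop
    have h2 : Tendsto (fun k => coeff g (F (φ k))) atTop
        (𝓝 (coeff g (∑ i, poly (M0 i) ^ 2))) := by
      have h3 := ((cont g).tendsto M0).comp hlimM
      refine h3.congr fun k => ?_
      simp only [Function.comp_apply]
      rw [hM (φ k)]
    exact tendsto_nhds_unique h1 h2
  refine ⟨Fintype.card (Fin v → Fin (m + 1)),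
    fun j => poly (M0 ((Fintype.equivFin _).symm j)), ?_⟩
  rw [hfin]
  exact (Equiv.sum_comp (Fintype.equivFin (Fin v → Fin (m + 1))).symm
    (fun i => poly (M0 i) ^ 2)).symm

end Run7.h690.PS
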